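import Pool.Agent.helper70.BND.SpecH

/-!
# Project BND, block H, row FWF: logarithms
-/

set_option autoImplicit false

open scoped Topology
open Finset

namespace Pool.Agent.BND.EX

theorem FWF_sw_flatMap (lam : ℕ → ℝ → ℂ) (F : ℕ → List (ℕ × ℝ)) (u : List ℕ) :
    sw lam (u.flatMap F) = (u.map fun v => sw lam (F v)).sum := by
  induction u with
  | nil => simp
  | cons a u ih => simp [ih]

theorem FWF (hMKL : MKL_stmt) : FWF_stmt := by
  intro m A A' M J Rk w hNx hW hRk lam nn hlog hnn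
  have hIs : IsLv A'.l := (hMKL A' hNx.gl').1
  have hn' : A'.l.n = A'.n := rfl
  have key : ∀ e : ℕ, ∃ (Le : ℝ → ℂ) (k : ℤ), e < A'.l.N → (ContinuousOn Le U ∧
      (e < A'.n → ∀ s, Le s = sw lam (w e 0)) ∧
      (∀ s ∈ U, Complex.exp (Le s) = Complex.exp (sw lam (w e s))) ∧
      Le 0 = sw lam ((A'.l.W e false).flatMap fun v => wv A.l J (M v)) ∧
      Le 1 = sw lam ((A'.l.W e true).flatMap fun v => wv A.l J (M v)) + 2 * Real.pi * Complex.I * (k : ℂ) ∧
      (e < A'.n + A'.n * A'.n → k = 0)) := by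
    intro e
    by_cases he : e < A'.l.N
    swap
    · exact ⟨0, 0, fun h => absurd h he⟩
    by_cases hen : e < A'.n
    · refine ⟨fun _ => sw lam (w e 0), 0, fun _ => ⟨continuousOn_const, fun _ _ => rfl, ?_, ?_, ?_, fun _ => rfl⟩⟩
      · intro s _
        rw [hW.vt e s hen, hW.vt e 0 hen]
      · rw [hIs.vtx e hen false, hW.vt e 0 hen]
        simp
      · rw [hIs.vtx e hen true, hW.vt e 0 hen]
        simp
    · obtain ⟨d, hp, hd⟩ := hW.bd e (not_lt.1 hen) he
      obtain ⟨Lam, hc, hexp, h0, h1⟩ := hp.lg lam nn hlog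
      refine ⟨Lam, ∑ i ∈ range A.l.N, d i * nn i, fun _ => ⟨hc, fun h => absurd h hen, hexp, h0, h1, ?_⟩⟩
      intro hlt
      apply Finset.sum_eq_zero
      intro i hi
      rw [Finset.mem_range] at hi
      by_cases hi2 : i < A.n + A.n * A.n
      · rw [hd hRk hlt i hi2, zero_mul]
      · rw [hnn i (not_lt.1 hi2) hi, mul_zero]
  choose Le k hkey using key
  have hvert : ∀ v, v < A'.n → Le v 0 = sw lam (wv A.l J (M v)) := by
    intro v hv
    have := (hkey v (lt_of_lt_of_le hv (hn' ▸ hIs.nN))).2.1 hv 0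
    rw [this, hW.vt v 0 hv]
  have hword : ∀ e, e < A'.l.N → ∀ b, sw lam ((A'.l.W e b).flatMap fun v => wv A.l J (M v)) =
      ((A'.l.W e b).map fun v => Le v 0).sum := by
    intro e he b
    rw [FWF_sw_flatMap]
    congr 1
    apply List.map_congr_left
    intro v hv
    exact (hvert v (hIs.mem e he b v hv)).symm
  refine ⟨Le, k, ⟨?_, ?_, ?_, ?_⟩, ?_, ?_, ?_⟩
  · intro e he
    exact (hkey e he).1
  · intro e he s
    have h := (hkey e (lt_of_lt_of_le he hIs.nN)).2.1 he
    rw [h s, h 0]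
  · intro e he
    rw [(hkey e he).2.2.2.1, hword e he false]
  · intro e he
    rw [(hkey e he).2.2.2.2.1, hword e he true]
  · intro e he
    exact (hkey e (lt_of_lt_of_le he (by simp [LD.l]))).2.2.2.2.2 he
  · intro v hv
    rw [hvert v hv, hW.vt v 0 hv]
  · intro e he s hs
    exact (hkey e he).2.2.1 s hs

end Pool.Agent.BND.EX
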