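import Pool.Agent.helper70.BND.SpecH

/-!
# Project BND, block H, row STE: the step
-/

set_option autoImplicit false

open scoped Topology
open Finset

namespace Pool.Agent.BND.EX

theorem STE (hSTG : STG_stmt) (hLAT : LAT_stmt) (hRK1 : RK1_stmt) (hLTR : LTR_stmt) (hGLV : GLV_stmt) (hMKL : MKL_stmt)
    (hEMC : EMC_stmt) (hJEX : JEX_stmt) (hDLF : DLF_stmt) (hEXW : EXW_stmt) (hFWA : FWA_stmt) (hFWB : FWB_stmt)
    (hFWC : FWC_stmt) (hFWD : FWD_stmt) (hFWE : FWE_stmt) (hFWF : FWF_stmt) (hCMN : CMN_stmt) : STE_stmt := by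
  intro H _ P g hS H' hg hp m σ hσ x hx
  obtain ⟨J, hJ1, hJ⟩ := hJEX σ.A.l σ.FL m hσ.cmp
  have hGl : σ.A.Gl := hσ.gl
  obtain ⟨n', th', M, hn', hP', hth, hM, hkill, c, hc⟩ :=
    hSTG H P g hS σ.A.n σ.th hGl.n0 hσ.pos x hx (Nb m σ.A J)
  obtain ⟨h', hh'⟩ : ∃ h' : ℕ → ℕ, ∀ v', h' v' = ∑ v ∈ range σ.A.n, M v' v * σ.A.h v :=
    ⟨fun v' => ∑ v ∈ range σ.A.n, M v' v * σ.A.h v, fun _ => rfl⟩
  obtain ⟨k', c', hLat⟩ := hLAT H H' hp n' h' th'
  obtain ⟨A', hA'⟩ : ∃ A' : LD, A' = ⟨n', h', k', c'⟩ := ⟨_, rfl⟩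
  rw [← hA'] at hLat
  have hAn : A'.n = n' := by rw [hA']
  have hAh : A'.h = h' := by rw [hA']
  have hNb : m + 10 ≤ Nb m σ.A J := by
    unfold Nb
    omega
  have hbig : ∀ v', v' < n' → Nb m σ.A J ≤ h' v' := by
    intro v' hv'
    rw [hh']
    have h1 : M v' 0 * σ.A.h 0 ≤ ∑ v ∈ range σ.A.n, M v' v * σ.A.h v :=
      Finset.single_le_sum (f := fun v => M v' v * σ.A.h v) (fun _ _ => Nat.zero_le _)
        (Finset.mem_range.2 hGl.n0)
    have h2 : Nb m σ.A J * 1 ≤ M v' 0 * σ.A.h 0 :=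
      Nat.mul_le_mul (hM v' 0 hv' hGl.n0) (hGl.pos 0 hGl.n0)
    omega
  have hunit : ∑ v' ∈ range n', h' v' • th' v' = g := by
    rw [← hσ.unit]
    have e1 : ∀ v' ∈ range n', h' v' • th' v' = ∑ v ∈ range σ.A.n, (σ.A.h v * M v' v) • th' v' := by
      intro v' _
      rw [hh', Finset.sum_smul]
      exact Finset.sum_congr rfl fun v _ => by rw [mul_comm]
    rw [Finset.sum_congr rfl e1, Finset.sum_comm]
    refine Finset.sum_congr rfl fun v hv => ?_
    rw [hth v (Finset.mem_range.1 hv), Finset.smul_sum]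
    exact Finset.sum_congr rfl fun v' _ => by rw [smul_smul]
  have hGl' : A'.Gl := by
    refine hGLV H H' A' th' hLat (hAn ▸ hn') ?_ ?_
    · intro v hv
      rw [hAh]
      have := hbig v (hAn ▸ hv)
      omega
    · rw [hAn, hAh, hunit]
      exact hg
  have hNx : Nx m σ.A A' M J := by
    refine ⟨hGl, hGl', ?_, ?_, hJ1⟩
    · intro v' _
      rw [hAh, hh']
    · intro v' v hv' hv
      exact hM v' v (hAn ▸ hv') hv
  have hth2 : ∀ v, v < σ.A.n → σ.th v = ∑ v' ∈ range A'.n, M v' v • th' v' := by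
    intro v hv
    rw [hAn]
    exact hth v hv
  obtain ⟨w, hw⟩ := hEXW m σ.A A' M J (RkOne H') hNx
    (hLTR H H' σ.A A' σ.th th' M hσ.lat hLat hth2)
    (fun hR a b ha hb => by
      obtain ⟨N, hN⟩ := hRK1 H H' hR σ.A σ.th hσ.lat (fun v => (M a v : ℤ)) (fun v => (M b v : ℤ))
        (fun z hz => hkill z hz a (hAn ▸ ha)) (fun z hz => hkill z hz b (hAn ▸ hb))
      exact ⟨N, fun i j hi hj => hN i j hi hj⟩)
  obtain ⟨a1, a2, a3, a4, a5, a6, a7, a8⟩ := hFWA m σ.A A' M J (RkOne H') w hNx hw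
  have b1 := hFWB m σ.A A' M J (RkOne H') w hNx hw
  have c1 := hFWC m σ.A A' M J (RkOne H') w hNx hw
  obtain ⟨d1, d2⟩ := hFWD m σ.A A' M J (RkOne H') w hNx hw
  have e1 := hFWE m σ.A A' M J (RkOne H') w hNx hw
  have f1 := hFWF m σ.A A' M J (RkOne H') w hNx hw
  have g1 := hCMN m σ.A A' M J (RkOne H') w hNx hw
  obtain ⟨k1, k2, k3, k4, k5, k6, k7, k8⟩ := hDLF σ.A.l.N J
  refine ⟨⟨A', th', BND.emb A'.l :: σ.FL.map fun Φ e s i => fw σ.A.l.h Φ (w e s) i⟩, M, w, Sj J, ?_, ?_, c, ?_⟩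
  · refine ⟨hGl', ?_, ?_, ?_, hLat, ?_, List.mem_cons_self⟩
    · intro v hv
      change m + 1 + 1 ≤ A'.h v
      rw [hAh]
      have := hbig v (hAn ▸ hv)
      omega
    · intro v hv
      exact hP' v (hAn ▸ hv)
    · change ∑ v ∈ range A'.n, A'.h v • th' v = g
      rw [hAn, hAh, hunit]
    · intro Φ hΦ
      rcases List.mem_cons.1 hΦ with rfl | hΦ
      · exact hEMC A'.l (hMKL A' hGl').1
      · obtain ⟨Ψ, hΨ, rfl⟩ := List.mem_map.1 hΦ
        exact g1 Ψ (hσ.cmp Ψ hΨ)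
  · exact
      { th_eq := hth2
        kill := fun z hz v' hv' => hkill z hz v' (hAn ▸ hv')
        fl := rfl
        htw := a1
        lett := a2
        vtx := a3
        cont := fun Φ hΦ => (b1 Φ hΦ).1
        ends := fun Φ hΦ => (b1 Φ hΦ).2
        bot := a4
        top := a5
        dns := by
          intro e' s' he' hs' e t he ht
          obtain ⟨t', ht', htt⟩ := k7 hJ1 t ht
          exact ⟨t', k5 t' ht', a8 e' s' he' hs' e t' he ht',
            fun Φ hΦ i hi c => hJ Φ hΦ e i he hi t ht t' (k5 t' ht') htt c⟩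
        cov := c1
        sfin := k3
        onev := a6
        oneb := a7
        cnt := d1
        st1 := fun v' ς hv' hς => (d2 v' ς hv' hς).1.trans (d2 v' ς hv' hς).2
        st2 := e1
        lft := f1 }
  · change x = ∑ v ∈ range A'.n, c v • th' v
    rw [hAn]
    exact hc

end Pool.Agent.BND.EX
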